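import Mathlib
import Pool.Agent.W825.FP.Pp
import Pool.Agent.H634R3.WG.XStmts

set_option autoImplicit false

/-!
# Collineation groups with few orbits and small point stabilizers
-/

namespace Pool.Agent.Q90.TD

open Configuration Configuration.ProjectivePlane Pool.Agent.H951R4.OD Pool.Agent.H634R3.WG

/-- some plane of order `n` has a group of collineations with at most `T` orbits on the points
and point stabilizers of order at most `S` -/
def HasFew (S T n : ℕ) : Prop :=
  ∃ (P L : Type) (_ : Finite P) (_ : Finite L) (_ : Membership P L) (_ : ProjectivePlane P L)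
    (G : Type) (_ : Group G) (_ : Finite G) (_ : MulAction G P) (_ : MulAction G L),
    order P L = n ∧ (∀ (g : G) (p : P) (l : L), g • p ∈ g • l ↔ p ∈ l) ∧
      (∀ x : P, Nat.card (MulAction.stabilizer G x) ≤ S) ∧
      Nat.card (MulAction.orbitRel.Quotient G P) ≤ T

/-- a large prime divisor of the number of points divides the order of the group -/
theorem dvd_card_of_few {G X : Type} [Group G] [Finite G] [Finite X] [Nonempty X] [MulAction G X]
    {S T : ℕ} (hS : ∀ x : X, Nat.card (MulAction.stabilizer G x) ≤ S)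
    (hT : Nat.card (MulAction.orbitRel.Quotient G X) ≤ T) {q : ℕ} (hq : q.Prime)
    (hqX : q ∣ Nat.card X) (hbig : T * S.factorial < q) : q ∣ Nat.card G := by
  classical
  have : Fintype G := Fintype.ofFinite G
  have : Fintype X := Fintype.ofFinite X
  have : Fintype (MulAction.orbitRel.Quotient G X) := Fintype.ofFinite _
  by_contra hG
  let m : MulAction.orbitRel.Quotient G X → ℕ :=
    fun ω => S.factorial / Nat.card (MulAction.stabilizer G ω.out)
  have hcard : Nat.card X = ∑ ω : MulAction.orbitRel.Quotient G X,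
      Nat.card (MulAction.orbit G (ω.out : X)) := by
    rw [Nat.card_congr (MulAction.selfEquivSigmaOrbits G X), Nat.card_sigma]
  have hm : ∀ ω : MulAction.orbitRel.Quotient G X,
      S.factorial * Nat.card (MulAction.orbit G (ω.out : X)) = Nat.card G * m ω := by
    intro ω
    have h1 : Nat.card (MulAction.orbit G (ω.out : X)) *
        Nat.card (MulAction.stabilizer G (ω.out : X)) = Nat.card G := by
      rw [← Nat.card_prod]
      exact Nat.card_congr (MulAction.orbitProdStabilizerEquivGroup G (ω.out : X))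
    have h2 : Nat.card (MulAction.stabilizer G (ω.out : X)) ∣ S.factorial :=
      Nat.dvd_factorial Nat.card_pos (hS _)
    have h3 : S.factorial = Nat.card (MulAction.stabilizer G (ω.out : X)) * m ω :=
      (Nat.mul_div_cancel' h2).symm
    calc S.factorial * Nat.card (MulAction.orbit G (ω.out : X))
        = Nat.card (MulAction.stabilizer G (ω.out : X)) * m ω *
            Nat.card (MulAction.orbit G (ω.out : X)) := by rw [← h3]
      _ = Nat.card (MulAction.orbit G (ω.out : X)) *
            Nat.card (MulAction.stabilizer G (ω.out : X)) * m ω := by ring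
      _ = _ := by rw [h1]
  have hsum : S.factorial * Nat.card X = Nat.card G * ∑ ω, m ω := by
    rw [hcard, Finset.mul_sum, Finset.mul_sum]
    exact Finset.sum_congr rfl fun ω _ => hm ω
  have h4 : q ∣ ∑ ω, m ω := by
    have h5 : q ∣ Nat.card G * ∑ ω, m ω := by
      rw [← hsum]
      exact hqX.mul_left _
    rcases (Nat.Prime.dvd_mul hq).1 h5 with h6 | h6
    · exact absurd h6 hG
    · exact h6
  have h7 : ∑ ω, m ω ≤ T * S.factorial := by
    calc ∑ ω, m ω ≤ ∑ _ω : MulAction.orbitRel.Quotient G X, S.factorial :=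
          Finset.sum_le_sum fun ω _ => Nat.div_le_self _ _
      _ = Nat.card (MulAction.orbitRel.Quotient G X) * S.factorial := by
          rw [Finset.sum_const, Finset.card_univ, smul_eq_mul, Nat.card_eq_fintype_card]
      _ ≤ T * S.factorial := Nat.mul_le_mul_right _ hT
  have h8 : 0 < ∑ ω, m ω := by
    obtain ⟨x⟩ := ‹Nonempty X›
    apply Nat.pos_of_ne_zero
    intro h0
    rw [h0, mul_zero] at hsum
    rcases Nat.mul_eq_zero.1 hsum with h9 | h9
    · exact Nat.factorial_ne_zero S h9
    · exact absurd h9 (Nat.card_pos (α := X)).ne'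
  have := Nat.le_of_dvd h8 h4
  omega

/-- the test -/
theorem few_test {S T n : ℕ} (h : HasFew S T n) {r q j : ℕ} (hr : r.Prime) (hrn : r ∣ n)
    (hrn2 : ¬ r ^ 2 ∣ n) (hq : q.Prime) (hq3 : 2 < q) (hbig : T * S.factorial < q)
    (hSq : S < q) (hqv : q ∣ n ^ 2 + n + 1) (hj : (r : ZMod q) ^ j = -1) : False := by
  classical
  obtain ⟨P, L, _, _, _, _, G, _, _, _, _, hn, hinc, hS, hT⟩ := h
  have : Fintype P := Fintype.ofFinite P
  have : Fintype L := Fintype.ofFinite L
  have : Nonempty P := Fintype.card_pos_iff.1 (by rw [card_points P L]; positivity)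
  have hcard := card_points P L
  rw [hn] at hcard
  have hqG : q ∣ Nat.card G := dvd_card_of_few hS hT hq
    (by rw [Nat.card_eq_fintype_card, hcard]; exact hqv) hbig
  have hF : Fact q.Prime := ⟨hq⟩
  obtain ⟨g, hg⟩ := exists_prime_orderOf_dvd_card' q hqG
  have hgq : g ^ q = 1 := by rw [← hg]; exact pow_orderOf_eq_one g
  obtain ⟨u, hu⟩ := hrn
  refine Pool.Agent.W825.FP.pp_test (P := P) (L := L) (MulAction.toPermHom G P g)
    (MulAction.toPermHom G L g) (fun p l => hinc g p l) hq hq3 (b := 1) ?_ ?_ ?_ hr hj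
    (a := 1) odd_one (u := u) ?_ ?_
  · rw [pow_one, ← map_pow, hgq, map_one]
  · rw [pow_one, ← map_pow, hgq, map_one]
  · have h0 : Nat.card {p : P // (MulAction.toPermHom G P g) p = p} = 0 := by
      rw [Nat.card_eq_zero]
      left
      refine ⟨fun x => ?_⟩
      obtain ⟨x, hx⟩ := x
      have h1 : g • x = x := hx
      let k : MulAction.stabilizer G x := ⟨g, h1⟩
      have h2 : orderOf k = q := by
        rw [← hg, ← Subgroup.orderOf_coe]
      have h3 : q ≤ Nat.card (MulAction.stabilizer G x) := by
        rw [← h2]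
        exact Nat.le_of_dvd Nat.card_pos (orderOf_dvd_natCard k)
      have := hS x
      omega
    rw [h0]
    exact ⟨0, rfl⟩
  · rintro ⟨w, rfl⟩
    exact hrn2 ⟨w, by rw [hu]; ring⟩
  · rw [hn, pow_one, hu]

theorem few_pos {S T n : ℕ} (h : HasFew S T n) : 1 ≤ n := by
  obtain ⟨P, L, _, _, _, _, G, _, _, _, _, hn, -⟩ := h
  rw [← hn]
  exact (one_lt_order P L).le

theorem polX_mul {f : ℕ → ℤ} {c0 : ℕ} {e : ℝ} {Δ : ℤ} (h : PolX f c0 e Δ) {m : ℕ} (hm : 0 < m) :
    PolX f (c0 * m) e Δ where
  pos := Nat.mul_pos h.pos hm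
  two := h.two.mul_right m
  e01 := h.e01
  neg := h.neg
  per := h.per
  cnt := fun q hq hqc => h.cnt q hq (fun h1 => hqc (h1.mul_right m))
  lift := fun q hq hqc => h.lift q hq (fun h1 => hqc (h1.mul_right m))

end Pool.Agent.Q90.TD
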