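import Mathlib
import Pool.Agent.TH905.PC.Fin

set_option autoImplicit false

/-!
# Tactical decompositions of symmetric designs: the quadratic condition
-/

namespace Pool.Agent.Q90.TD

open Finset Pool.Agent.H634R3.PPC Pool.Agent.TH905.PC

section tac

variable {P L I J : Type} [Fintype P] [Fintype L]

open Classical in
/-- the size of a class -/
noncomputable def cs {X K : Type} [Fintype X] (c : X → K) (i : K) : ℕ :=
  (univ.filter (fun x => c x = i)).card

theorem card_eq_cs {X K : Type} [Fintype X] (c : X → K) (i : K)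
    [DecidablePred (fun x => c x = i)] : (univ.filter (fun x => c x = i)).card = cs c i := by
  unfold cs
  congr

open Classical in
/-- the number of the points of class `i` on `l` -/
noncomputable def pl (inc : P → L → Prop) (c : P → I) (i : I) (l : L) : ℕ :=
  (univ.filter (fun x => c x = i ∧ inc x l)).card

/-- one half of the conditions of a tactical decomposition -/
structure Half (inc : P → L → Prop) (c : P → I) (d : L → J) : Prop where
  surj : Function.Surjective c
  surj' : Function.Surjective d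
  con : ∀ (i : I) (l l' : L), d l = d l' → pl inc c i l = pl inc c i l'

variable {inc : P → L → Prop} {c : P → I} {d : L → J}

theorem cs_pos {X K : Type} [Fintype X] {c : X → K} (hc : Function.Surjective c) (i : K) :
    0 < cs c i := by
  classical
  obtain ⟨x, hx⟩ := hc i
  exact Finset.card_pos.2 ⟨x, by simp [hx]⟩

/-- the matrix of the numbers of points -/
noncomputable def tm (H : Half inc c d) (i : I) (j : J) : ℤ :=
  (pl inc c i (Function.surjInv H.surj' j) : ℤ)

theorem tm_eq (H : Half inc c d) (i : I) (l : L) : tm H i (d l) = (pl inc c i l : ℤ) := by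
  unfold tm
  rw [H.con i _ l (Function.surjInv_eq H.surj' (d l))]

theorem sum_cls {X K : Type} [Fintype X] [Fintype K] (c : X → K) (F : K → ℤ) :
    ∑ i, F i * (cs c i : ℤ) = ∑ x, F (c x) := by
  classical
  rw [← Finset.sum_fiberwise univ c (fun x => F (c x))]
  refine sum_congr rfl fun i _ => ?_
  have h1 : ∀ x ∈ univ.filter (fun x => c x = i), F (c x) = F i := by
    intro x hx
    rw [(mem_filter.1 hx).2]
  rw [sum_congr rfl h1, sum_const, nsmul_eq_mul, mul_comm, card_eq_cs]

theorem pl_cast (i : I) (l : L) : (pl inc c i l : ℤ) =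
    by classical exact ∑ x : P, if c x = i ∧ inc x l then (1 : ℤ) else 0 := by
  classical
  unfold pl
  rw [sum_boole]

/-- the numbers of lines -/
theorem pl_sum {n la : ℕ} (D : Des inc n la) (i : I) :
    ∑ l : L, (pl inc c i l : ℤ) = (cs c i : ℤ) * ((n : ℤ) + la) := by
  classical
  simp only [pl_cast]
  rw [sum_comm]
  have h1 : ∀ x : P, (∑ l : L, if c x = i ∧ inc x l then (1 : ℤ) else 0) =
      if c x = i then ((n : ℤ) + la) else 0 := by
    intro x
    by_cases hx : c x = i
    · simp only [hx, true_and, if_true]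
      have h2 := D.row x x
      rw [if_pos rfl] at h2
      simp only [and_self] at h2
      rw [sum_boole]
      have h3 : (univ.filter (fun l : L => inc x l)).card = n + la := by
        rw [← h2]
      exact_mod_cast h3
    · simp [hx]
  rw [sum_congr rfl (fun x _ => h1 x), ← sum_filter, sum_const, nsmul_eq_mul]
  unfold cs
  norm_cast

theorem pl_gram {n la : ℕ} (D : Des inc n la) [DecidableEq I] (i k : I) :
    ∑ l : L, (pl inc c i l : ℤ) * (pl inc c k l : ℤ) =
      (if i = k then (n : ℤ) * (cs c i : ℤ) else 0) + (la : ℤ) * ((cs c i : ℤ) * (cs c k : ℤ)) := by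
  classical
  have e1 : ∀ l : L, (pl inc c i l : ℤ) * (pl inc c k l : ℤ) = ∑ x : P, ∑ y : P,
      if c x = i ∧ c y = k then (if inc x l ∧ inc y l then (1 : ℤ) else 0) else 0 := by
    intro l
    rw [pl_cast, pl_cast, sum_mul_sum]
    refine sum_congr rfl fun x _ => sum_congr rfl fun y _ => ?_
    by_cases h1 : c x = i <;> by_cases h2 : c y = k <;> by_cases h3 : inc x l <;>
      by_cases h4 : inc y l <;> simp [h1, h2, h3, h4]
  have e2 : ∀ x y : P, (∑ l : L, if c x = i ∧ c y = k then
      (if inc x l ∧ inc y l then (1 : ℤ) else 0) else 0) =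
      if c x = i ∧ c y = k then ((if x = y then (n : ℤ) else 0) + la) else 0 := by
    intro x y
    split_ifs with h1 h2
    · rw [sum_boole]
      have h3 := D.row x y
      rw [if_pos h2] at h3
      have h4 : (univ.filter (fun l : L => inc x l ∧ inc y l)).card = n + la := by rw [← h3]
      exact_mod_cast h4
    · rw [sum_boole]
      have h3 := D.row x y
      rw [if_neg h2] at h3
      have h4 : (univ.filter (fun l : L => inc x l ∧ inc y l)).card = 0 + la := by rw [← h3]
      exact_mod_cast h4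
    · simp
  rw [sum_congr rfl (fun l _ => e1 l), sum_comm]
  have e3 : ∀ x : P, (∑ l : L, ∑ y : P, if c x = i ∧ c y = k then
      (if inc x l ∧ inc y l then (1 : ℤ) else 0) else 0) =
      (if c x = i ∧ c x = k then (n : ℤ) else 0) +
        (la : ℤ) * ((if c x = i then (1 : ℤ) else 0) * (cs c k : ℤ)) := by
    intro x
    rw [sum_comm, sum_congr rfl (fun y _ => e2 x y)]
    have e4 : ∀ y : P, (if c x = i ∧ c y = k then ((if x = y then (n : ℤ) else 0) + la) else 0) =
        (if x = y then (if c x = i ∧ c y = k then (n : ℤ) else 0) else 0) +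
          la * ((if c x = i then (1 : ℤ) else 0) * (if c y = k then (1 : ℤ) else 0)) := by
      intro y
      by_cases h3 : x = y
      · subst h3
        rw [if_pos rfl, if_pos rfl]
        by_cases h1 : c x = i
        · by_cases h2 : c x = k
          · rw [if_pos ⟨h1, h2⟩, if_pos ⟨h1, h2⟩, if_pos h1, if_pos h2]
            ring
          · rw [if_neg (fun h => h2 h.2), if_neg (fun h => h2 h.2), if_neg h2]
            ring
        · rw [if_neg (fun h => h1 h.1), if_neg (fun h => h1 h.1), if_neg h1]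
          ring
      · by_cases h1 : c x = i <;> by_cases h2 : c y = k <;> simp [h1, h2, h3]
    rw [sum_congr rfl (fun y _ => e4 y), sum_add_distrib, sum_ite_eq, if_pos (mem_univ _),
      ← mul_sum, ← mul_sum, sum_boole, card_eq_cs]
  rw [sum_congr rfl (fun x _ => e3 x), sum_add_distrib, ← mul_sum, ← sum_mul, sum_boole,
    card_eq_cs]
  congr 1
  by_cases hC : i = k
  · subst hC
    rw [if_pos rfl]
    simp only [and_self]
    rw [← sum_filter, sum_const, nsmul_eq_mul, mul_comm, card_eq_cs]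
  · rw [if_neg hC]
    apply sum_eq_zero
    intro x _
    rw [if_neg]
    rintro ⟨h1, h2⟩
    exact hC (h1.symm.trans h2)

/-- the extended matrix -/
noncomputable def bx (H : Half inc c d) (n la : ℕ) : Matrix (I ⊕ Unit) (J ⊕ Unit) ℤ
  | Sum.inl i, Sum.inl j => tm H i j
  | Sum.inl i, Sum.inr _ => (cs c i : ℤ)
  | Sum.inr _, Sum.inl _ => (la : ℤ)
  | Sum.inr _, Sum.inr _ => (n : ℤ) + la

/-- the extended form -/
noncomputable def px {X K : Type} [Fintype X] (c : X → K) (la : ℕ) : K ⊕ Unit → ℤ :=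
  Sum.elim (fun i => (cs c i : ℤ)) (fun _ => -(la : ℤ))

variable [Fintype I] [Fintype J] [DecidableEq I] [DecidableEq J]

theorem bx_gram [Nonempty P] (H : Half inc c d) {n la : ℕ} (D : Des inc n la) :
    bx H n la * Matrix.diagonal (px d la) * (bx H n la).transpose =
      (n : ℤ) • Matrix.diagonal (px c la) := by
  classical
  have h1 : ∀ i : I, ∑ j : J, tm H i j * (cs d j : ℤ) = (cs c i : ℤ) * ((n : ℤ) + la) := by
    intro i
    rw [sum_cls d (fun j => tm H i j), ← pl_sum D]
    exact sum_congr rfl fun l _ => tm_eq H i l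
  ext a b
  rw [Matrix.mul_apply, Fintype.sum_sum_type]
  simp only [Matrix.mul_diagonal, Matrix.transpose_apply, Finset.univ_unique,
    Finset.sum_singleton, Matrix.smul_apply, smul_eq_mul, Matrix.diagonal_apply]
  rcases a with i | a
  · rcases b with k | b
    · simp only [bx, px, Sum.elim_inl, Sum.elim_inr, Sum.inl.injEq]
      have h3 := sum_cls d (fun j => tm H i j * tm H k j)
      simp only [tm_eq] at h3
      rw [pl_gram D] at h3
      have h4 : ∑ j : J, tm H i j * (cs d j : ℤ) * tm H k j =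
          (if i = k then (n : ℤ) * (cs c i : ℤ) else 0) + (la : ℤ) * ((cs c i : ℤ) * (cs c k : ℤ)) := by
        rw [← h3]
        exact sum_congr rfl fun j _ => by ring
      rw [h4]
      split_ifs <;> ring
    · simp only [bx, px, Sum.elim_inl, Sum.elim_inr, reduceCtorEq, if_false, mul_zero]
      rw [← sum_mul, h1]
      ring
  · rcases b with k | b
    · simp only [bx, px, Sum.elim_inl, Sum.elim_inr, reduceCtorEq, if_false, mul_zero]
      have h4 : ∑ j : J, (la : ℤ) * (cs d j : ℤ) * tm H k j =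
          (la : ℤ) * ((cs c k : ℤ) * ((n : ℤ) + la)) := by
        rw [← h1, mul_sum]
        exact sum_congr rfl fun j _ => by ring
      rw [h4]
      ring
    · simp only [bx, px, Sum.elim_inl, Sum.elim_inr, if_true]
      have h4 : ∑ j : J, (la : ℤ) * (cs d j : ℤ) * (la : ℤ) = (la : ℤ) * la * Fintype.card L := by
        have h5 := sum_cls d (fun _ => (1 : ℤ))
        rw [sum_const, card_univ, nsmul_eq_mul, mul_one] at h5
        rw [← h5, mul_sum]
        exact sum_congr rfl fun j _ => by ring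
      have h6 := des_sq D
      rw [h4]
      linear_combination (-(la : ℤ)) * h6

theorem px_det {X K : Type} [Fintype X] [Fintype K] [DecidableEq K] (c : X → K) (la : ℕ) :
    (Matrix.diagonal (px c la)).det = (∏ i, (cs c i : ℤ)) * -(la : ℤ) := by
  rw [Matrix.det_diagonal, Fintype.prod_sum_type]
  simp [px]

/-- the first inequality between the numbers of classes -/
theorem half_le [Nonempty P] (H : Half inc c d) {n la : ℕ} (D : Des inc n la) (hla0 : la ≠ 0) :
    Fintype.card I ≤ Fintype.card J := by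
  have hn0 : (n : ℤ) ≠ 0 := by exact_mod_cast D.npos.ne'
  have h : Fintype.card (I ⊕ Unit) ≤ Fintype.card (J ⊕ Unit) := by
    apply card_le_of_det (bx H n la * Matrix.diagonal (px d la)) (bx H n la).transpose
    rw [bx_gram H D, Matrix.det_smul, px_det]
    refine mul_ne_zero (pow_ne_zero _ hn0) (mul_ne_zero (Finset.prod_ne_zero_iff.2 fun i _ => ?_)
      (neg_ne_zero.2 (by exact_mod_cast hla0)))
    have := cs_pos H.surj i
    exact_mod_cast this.ne'
  simpa using h

/-- **the quadratic condition** -/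
theorem tac_quad [Nonempty P] (H : Half inc c d) (hcard : Fintype.card I = Fintype.card J)
    {n la : ℕ} (D : Des inc n la) {p : ℕ} (hp : p.Prime) (hla : ¬ p ∣ la)
    (hsz : ∀ i, ¬ p ∣ cs c i) (hsz' : ∀ j, ¬ p ∣ cs d j)
    {a u : ℕ} (ha : Odd a) (hu : ¬ p ∣ u) (hN : n = p ^ a * u) :
    ∃ t, Fintype.card I + 1 = 2 * t ∧
      IsSquare ((-1) ^ t * (((∏ i, (cs c i : ℤ)) * -(la : ℤ) : ℤ) : ZMod p)) := by
  classical
  have hcard' : Fintype.card (I ⊕ Unit) = Fintype.card (J ⊕ Unit) := by simp [hcard]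
  let ε : (I ⊕ Unit) ≃ (J ⊕ Unit) := Fintype.equivOfCardEq hcard'
  let B : Matrix (I ⊕ Unit) (I ⊕ Unit) ℤ := (bx H n la).submatrix id ε
  have k1 := bx_gram H D
  have k3 : B * (Matrix.diagonal (px d la)).submatrix ε ε * B.transpose =
      (n : ℤ) • Matrix.diagonal (px c la) := by
    rw [← k1]
    have h1 : B.transpose = (bx H n la).transpose.submatrix ε id := rfl
    rw [h1, Matrix.submatrix_mul_equiv, Matrix.submatrix_mul_equiv, Matrix.submatrix_id_id]
  have hd : ∀ {X K : Type} [Fintype X] [Fintype K] (c : X → K), (∀ i, ¬ p ∣ cs c i) →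
      ¬ (p : ℤ) ∣ (∏ i, (cs c i : ℤ)) * -(la : ℤ) := by
    intro X K _ _ c h h1
    rcases (Nat.prime_iff_prime_int.1 hp).dvd_or_dvd h1 with h2 | h2
    · exact prime_prod hp univ _ (fun C _ => h C) h2
    · rw [dvd_neg] at h2
      exact hla (by exact_mod_cast h2)
  have dP : ¬ (p : ℤ) ∣ (Matrix.diagonal (px c la)).det := by
    rw [px_det]
    exact hd c hsz
  have dL : ¬ (p : ℤ) ∣ ((Matrix.diagonal (px d la)).submatrix ε ε).det := by
    rw [Matrix.det_submatrix_equiv_self, px_det]
    exact hd d hsz'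
  obtain ⟨t, h1, h2⟩ := Pool.Agent.W825.KV.simil_odd B
    ((Matrix.diagonal (px d la)).submatrix ε ε) (Matrix.diagonal (px c la)) (n : ℤ) p hp
    (by rw [Matrix.transpose_submatrix, Matrix.diagonal_transpose])
    (Matrix.diagonal_transpose _) k3 ha (u := (u : ℤ)) (by exact_mod_cast hu)
    (by rw [hN]; push_cast; ring) dL dP
  refine ⟨t, ?_, ?_⟩
  · rw [← h1, Fintype.card_sum, Fintype.card_unit]
  · rw [px_det] at h2
    exact h2

/-- **smooth classes** -/
theorem tac_smooth [Nonempty P] (H : Half inc c d) (hcard : Fintype.card I = Fintype.card J)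
    {n la : ℕ} (D : Des inc n la) {M : ℕ} (hla0 : la ≠ 0) (hn : ArOK M n)
    (hla : ∀ q : ℕ, q.Prime → q ∣ la → q ∣ M) (hc : ∀ i, ∀ q : ℕ, q.Prime → q ∣ cs c i → q ∣ M)
    (hd : ∀ j, ∀ q : ℕ, q.Prime → q ∣ cs d j → q ∣ M) :
    Fintype.card I % 4 = 1 ∧ IsSquare (la * ∏ i, cs c i) := by
  have key : ∀ p : ℕ, p.Prime → ¬ p ∣ M → p ∣ n → ¬ p ^ 2 ∣ n →
      ∃ t, Fintype.card I + 1 = 2 * t ∧
      IsSquare ((-1) ^ t * (((∏ i, (cs c i : ℤ)) * -(la : ℤ) : ℤ) : ZMod p)) := by
    intro p hp hpM h1 h2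
    obtain ⟨u, hu, hN⟩ := exact_dvd h1 h2
    exact tac_quad H hcard D hp (fun h => hpM (hla p hp h)) (fun i h => hpM (hc i p hp h))
      (fun j h => hpM (hd j p hp h)) odd_one hu hN
  obtain ⟨p0, hp0, hpM0, h10, h20⟩ := hn.1
  have hpM0' : ¬ p0 ∣ M := by
    intro h
    have h1 : p0 ∣ p0 + 1 := h.trans hpM0
    have h2 : p0 ∣ 1 := (Nat.dvd_add_right dvd_rfl).1 h1
    exact hp0.one_lt.ne' (Nat.dvd_one.1 h2)
  obtain ⟨t, ht, -⟩ := key p0 hp0 hpM0' h10 h20
  have h3 := square_of hn (Q := la * ∏ i, cs c i)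
    (mul_ne_zero hla0 (Finset.prod_ne_zero_iff.2 fun i _ => (cs_pos H.surj i).ne')) (by
      intro q hq hqQ
      rcases (Nat.Prime.dvd_mul hq).1 hqQ with hqQ | hqQ
      · exact hla q hq hqQ
      obtain ⟨i, -, hi⟩ := (Prime.dvd_finsetProd_iff (Nat.prime_iff.1 hq) _).1 hqQ
      exact hc i q hq hi) (t + 1) (by
      intro p hp hpM h1 h2
      obtain ⟨t', ht', hs⟩ := key p hp hpM h1 h2
      have : t' = t := by omega
      subst this
      push_cast at hs ⊢
      rw [pow_succ]
      have e : (-1 : ZMod p) ^ t' * -1 * (la * ∏ i, (cs c i : ZMod p)) =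
          (-1) ^ t' * ((∏ i, (cs c i : ZMod p)) * -la) := by ring
      rw [e]
      exact hs)
  obtain ⟨k, hk2⟩ := h3.1
  exact ⟨by omega, h3.2⟩

/-- **classes with a large common factor** -/
theorem tac_ratio [Nonempty P] (H : Half inc c d) (hcard : Fintype.card I = Fintype.card J)
    {n la : ℕ} (D : Des inc n la) {M : ℕ} (hn : ArOK M n)
    (hla : ∀ q : ℕ, q.Prime → q ∣ la → q ∣ M) {g g' : ℕ} {m : I → ℕ} {m' : J → ℕ}
    (hc : ∀ i, cs c i = g * m i) (hd : ∀ j, cs d j = g' * m' j)
    (hm : ∀ i, ∀ q : ℕ, q.Prime → q ∣ m i → q ∣ M)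
    (hm' : ∀ j, ∀ q : ℕ, q.Prime → q ∣ m' j → q ∣ M)
    (hS : ∀ q : ℕ, q.Prime → q ∣ ∑ i, m i → q ∣ M) :
    Fintype.card I % 4 = 1 ∧ IsSquare ((∑ i, m i) * ∏ i, m i) := by
  classical
  set T := Fintype.card I with hT
  set S := ∑ i, m i with hSdef
  have hv : g * S = Fintype.card P := by
    have h1 := sum_cls c (fun _ => (1 : ℤ))
    simp only [one_mul, hc, sum_const, card_univ, nsmul_eq_mul, mul_one] at h1
    rw [hSdef, mul_sum]
    exact_mod_cast h1
  have hv' : g' * ∑ j, m' j = Fintype.card L := by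
    have h1 := sum_cls d (fun _ => (1 : ℤ))
    simp only [one_mul, hd, sum_const, card_univ, nsmul_eq_mul, mul_one] at h1
    rw [mul_sum]
    exact_mod_cast h1
  have hsq := des_sq D
  have hcv := D.card
  have hmi : ∀ i, m i ≠ 0 := by
    intro i h0
    have h1 := cs_pos H.surj i
    rw [hc, h0, mul_zero] at h1
    exact absurd h1 (lt_irrefl 0)
  have hne : Nonempty I := by
    obtain ⟨x⟩ := ‹Nonempty P›
    exact ⟨c x⟩
  have hS0 : S ≠ 0 := by
    have h1 : 0 < Fintype.card P := Fintype.card_pos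
    rintro h0
    rw [← hv, h0, mul_zero] at h1
    exact absurd h1 (lt_irrefl 0)
  have key : ∀ p : ℕ, p.Prime → ¬ p ∣ M → p ∣ n → ¬ p ^ 2 ∣ n →
      ∃ t, T + 1 = 2 * t ∧ IsSquare ((-1) ^ (t + 1) * ((S * ∏ i, m i : ℕ) : ZMod p)) := by
    intro p hp hpM h1 h2
    have : Fact p.Prime := ⟨hp⟩
    obtain ⟨u, hu, hN⟩ := exact_dvd h1 h2
    have hla1 : ¬ p ∣ la := fun h => hpM (hla p hp h)
    have hla0 : ((la : ℕ) : ZMod p) ≠ 0 := by
      rw [Ne, ZMod.natCast_eq_zero_iff]
      exact hla1
    have hvp : ((Fintype.card L : ℕ) : ZMod p) = (la : ℕ) := by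
      have h1 : ((n : ℕ) : ZMod p) = 0 := (ZMod.natCast_eq_zero_iff _ _).2 h1
      have h2 := congrArg (fun x : ℤ => (x : ZMod p)) hsq
      push_cast at h2
      rw [h1] at h2
      apply mul_left_cancel₀ hla0
      linear_combination -h2
    have hg : ((g : ℕ) : ZMod p) * (S : ℕ) = (la : ℕ) := by
      rw [← hvp, ← hcv, ← hv]; push_cast; ring
    have hg' : ((g' : ℕ) : ZMod p) * ((∑ j, m' j : ℕ) : ZMod p) = (la : ℕ) := by
      rw [← hvp, ← hv', Nat.cast_mul]
    have n1 : ¬ p ∣ g := by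
      intro h
      rw [(ZMod.natCast_eq_zero_iff g p).2 h, zero_mul] at hg
      exact hla0 hg.symm
    have n2 : ¬ p ∣ g' := by
      intro h
      rw [(ZMod.natCast_eq_zero_iff g' p).2 h, zero_mul] at hg'
      exact hla0 hg'.symm
    obtain ⟨t, ht, r, hr⟩ := tac_quad H hcard D hp hla1
      (fun i => by
        rw [hc]
        intro h
        rcases (Nat.Prime.dvd_mul hp).1 h with h | h
        · exact n1 h
        · exact hpM (hm i p hp h))
      (fun j => by
        rw [hd]
        intro h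
        rcases (Nat.Prime.dvd_mul hp).1 h with h | h
        · exact n2 h
        · exact hpM (hm' j p hp h)) odd_one hu hN
    refine ⟨t, ht, r * ((S : ℕ) : ZMod p) ^ t / ((la : ℕ) : ZMod p) ^ t, ?_⟩
    have hr2 : (∏ i, (cs c i : ℤ)) = (g : ℤ) ^ T * ∏ i, (m i : ℤ) := by
      rw [hT, ← card_univ, ← prod_const, ← prod_mul_distrib]
      exact prod_congr rfl fun i _ => by rw [hc]; push_cast; ring
    rw [hr2] at hr
    push_cast at hr
    have e0 : ((la : ℕ) : ZMod p) ^ t ≠ 0 := pow_ne_zero _ hla0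
    rw [div_mul_div_comm, eq_div_iff (mul_ne_zero e0 e0)]
    have e1 : (r * ((S : ℕ) : ZMod p) ^ t) * (r * ((S : ℕ) : ZMod p) ^ t) =
        (r * r) * ((S : ℕ) : ZMod p) ^ (2 * t) := by ring
    have e2 : ((la : ℕ) : ZMod p) ^ t * ((la : ℕ) : ZMod p) ^ t =
        ((la : ℕ) : ZMod p) * (((g : ℕ) : ZMod p) ^ T * ((S : ℕ) : ZMod p) ^ T) := by
      have e3 : ((g : ℕ) : ZMod p) ^ T * ((S : ℕ) : ZMod p) ^ T = ((la : ℕ) : ZMod p) ^ T := by
        rw [← mul_pow, hg]
      rw [e3, ← pow_add, ← pow_succ']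
      congr 1
      omega
    rw [e1, e2, ← hr, ← ht, pow_succ ((S : ℕ) : ZMod p)]
    push_cast
    rw [pow_succ]
    ring
  obtain ⟨p0, hp0, hpM0, h10, h20⟩ := hn.1
  have hpM0' : ¬ p0 ∣ M := by
    intro h
    have h1 : p0 ∣ p0 + 1 := h.trans hpM0
    have h2 : p0 ∣ 1 := (Nat.dvd_add_right dvd_rfl).1 h1
    exact hp0.one_lt.ne' (Nat.dvd_one.1 h2)
  obtain ⟨t, ht, -⟩ := key p0 hp0 hpM0' h10 h20
  have h3 := square_of hn (Q := S * ∏ i, m i)
    (mul_ne_zero hS0 (Finset.prod_ne_zero_iff.2 fun i _ => hmi i)) (by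
      intro q hq hqQ
      rcases (Nat.Prime.dvd_mul hq).1 hqQ with hqQ | hqQ
      · exact hS q hq hqQ
      obtain ⟨i, -, hi⟩ := (Prime.dvd_finsetProd_iff (Nat.prime_iff.1 hq) _).1 hqQ
      exact hm i q hq hi) (t + 1) (by
      intro p hp hpM h1 h2
      obtain ⟨t', ht', hs⟩ := key p hp hpM h1 h2
      have : t' = t := by omega
      subst this
      exact hs)
  obtain ⟨k, hk2⟩ := h3.1
  exact ⟨by omega, h3.2⟩

end tac

end Pool.Agent.Q90.TD
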