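import Mathlib
import Pool.Agent.Q90.TD.Tac

set_option autoImplicit false

/-!
# Tactical decompositions: both halves
-/

namespace Pool.Agent.Q90.TD

open Finset Pool.Agent.H634R3.PPC Pool.Agent.TH905.PC

section

variable {P L I J : Type} [Fintype P] [Fintype L] {inc : P → L → Prop} {c : P → I} {d : L → J}

omit [Fintype L] in
theorem nat_card_pl (i : I) (l : L) : Nat.card {x : P // c x = i ∧ inc x l} = pl inc c i l := by
  classical
  rw [Nat.card_eq_fintype_card, Fintype.card_subtype]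
  unfold pl
  congr

theorem nat_card_cs {X K : Type} [Fintype X] (c : X → K) (i : K) :
    Nat.card {x : X // c x = i} = cs c i := by
  classical
  rw [Nat.card_eq_fintype_card, Fintype.card_subtype, card_eq_cs]

theorem half_of (hc : Function.Surjective c) (hd : Function.Surjective d)
    (h : ∀ (i : I) (l l' : L), d l = d l' →
      Nat.card {x : P // c x = i ∧ inc x l} = Nat.card {x : P // c x = i ∧ inc x l'}) :
    Half inc c d :=
  ⟨hc, hd, fun i l l' hl => by rw [← nat_card_pl, ← nat_card_pl]; exact h i l l' hl⟩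

variable [Fintype I] [Fintype J]

theorem card_eq_of [Nonempty P] [Nonempty L] (H : Half inc c d)
    (H' : Half (fun (l : L) (x : P) => inc x l) d c) {n la : ℕ} (D : Des inc n la) (hla0 : la ≠ 0) :
    Fintype.card I = Fintype.card J := by
  classical
  exact le_antisymm (half_le H D hla0) (half_le H' (des_dual D) hla0)

/-- **smooth classes, both sides** -/
theorem tac_smooth_both [Nonempty P] [Nonempty L] (H : Half inc c d)
    (H' : Half (fun (l : L) (x : P) => inc x l) d c) {n la : ℕ} (D : Des inc n la) {M : ℕ}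
    (hla0 : la ≠ 0) (hn : ArOK M n)
    (hla : ∀ q : ℕ, q.Prime → q ∣ la → q ∣ M) (hc : ∀ i, ∀ q : ℕ, q.Prime → q ∣ cs c i → q ∣ M)
    (hd : ∀ j, ∀ q : ℕ, q.Prime → q ∣ cs d j → q ∣ M) :
    Fintype.card I = Fintype.card J ∧ Fintype.card I % 4 = 1 ∧ IsSquare (la * ∏ i, cs c i) ∧
      IsSquare (la * ∏ j, cs d j) := by
  classical
  have hcard := card_eq_of H H' D hla0
  obtain ⟨h1, h2⟩ := tac_smooth H hcard D hla0 hn hla hc hd
  obtain ⟨h3, h4⟩ := tac_smooth H' hcard.symm (des_dual D) hla0 hn hla hd hc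
  exact ⟨hcard, h1, h2, h4⟩

/-- **classes with a large common factor, both sides** -/
theorem tac_ratio_both [Nonempty P] [Nonempty L] (H : Half inc c d)
    (H' : Half (fun (l : L) (x : P) => inc x l) d c) {n la : ℕ} (D : Des inc n la) {M : ℕ}
    (hla0 : la ≠ 0) (hn : ArOK M n)
    (hla : ∀ q : ℕ, q.Prime → q ∣ la → q ∣ M) {g g' : ℕ} {m : I → ℕ} {m' : J → ℕ}
    (hc : ∀ i, cs c i = g * m i) (hd : ∀ j, cs d j = g' * m' j)
    (hm : ∀ i, ∀ q : ℕ, q.Prime → q ∣ m i → q ∣ M)
    (hm' : ∀ j, ∀ q : ℕ, q.Prime → q ∣ m' j → q ∣ M)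
    (hS : ∀ q : ℕ, q.Prime → q ∣ ∑ i, m i → q ∣ M)
    (hS' : ∀ q : ℕ, q.Prime → q ∣ ∑ j, m' j → q ∣ M) :
    Fintype.card I = Fintype.card J ∧ Fintype.card I % 4 = 1 ∧
      IsSquare ((∑ i, m i) * ∏ i, m i) ∧ IsSquare ((∑ j, m' j) * ∏ j, m' j) := by
  classical
  have hcard := card_eq_of H H' D hla0
  obtain ⟨h1, h2⟩ := tac_ratio H hcard D hn hla hc hd hm hm' hS
  obtain ⟨h3, h4⟩ := tac_ratio H' hcard.symm (des_dual D) hn hla hd hc hm' hm hS'
  exact ⟨hcard, h1, h2, h4⟩

end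

end Pool.Agent.Q90.TD
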