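import Mathlib
import Pool.Agent.Q90.TD.Pl
import Pool.Agent.TH905.PC.Pts

set_option autoImplicit false

/-!
# Tactical decompositions of symmetric designs on almost all numbers of points
-/

namespace Pool.Agent.Q90.TD

open Finset Filter Topology Pool.Agent.H634R3.PPC Pool.Agent.TH905.PC Pool.Agent.H634R3.AA
open Pool.Agent.H951R4.OD (repl)

section

variable {P L I J : Type} [Fintype P] [Fintype L] {inc : P → L → Prop} {c : P → I} {d : L → J}
  [Fintype I] [Fintype J] [DecidableEq I] [DecidableEq J]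

/-- smooth classes -/
theorem tac_smooth_lk [Nonempty P] (H : Half inc c d) (hcard : Fintype.card I = Fintype.card J)
    {n la : ℕ} (D : Des inc n la) {M M' n' : ℕ} (hn : Lk M M' n n' la)
    (hc : ∀ i, ∀ q : ℕ, q.Prime → q ∣ cs c i → q ∣ M)
    (hd : ∀ j, ∀ q : ℕ, q.Prime → q ∣ cs d j → q ∣ M) :
    Fintype.card I % 4 = 3 ∧ IsSquare (∏ i, cs c i) := by
  have key : ∀ p : ℕ, p.Prime → ¬ p ∣ M' → p ∣ n' → ¬ p ^ 2 ∣ n' →
      ∃ t, Fintype.card I + 1 = 2 * t ∧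
      IsSquare ((-1) ^ t * (((∏ i, (cs c i : ℤ)) * -(la : ℤ) : ℤ) : ZMod p)) := by
    intro p hp hpM2 h1 h2
    have hpM : ¬ p ∣ M := fun h => hpM2 (h.trans hn.dvd)
    obtain ⟨h3, h4⟩ := hn.ex p hp hpM2 h1 h2
    obtain ⟨u, hu, hN⟩ := exact_dvd h3 h4
    exact tac_quad H hcard D hp (hn.la p hp hpM2 h1 h2).1 (fun i h => hpM (hc i p hp h))
      (fun j h => hpM (hd j p hp h)) odd_one hu hN
  obtain ⟨p0, hp0, hpM0, h10, h20⟩ := hn.ar.1
  obtain ⟨t, ht, -⟩ := key p0 hp0 (not_dvd_of_succ hp0 hpM0) h10 h20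
  have h3 := square_of hn.ar (Q := ∏ i, cs c i)
    (Finset.prod_ne_zero_iff.2 fun i _ => (cs_pos H.surj i).ne') (by
      intro q hq hqQ
      obtain ⟨i, -, hi⟩ := (Prime.dvd_finsetProd_iff (Nat.prime_iff.1 hq) _).1 hqQ
      exact (hc i q hq hi).trans hn.dvd) t (by
      intro p hp hpM h1 h2
      obtain ⟨t', ht', hs⟩ := key p hp hpM h1 h2
      have : t' = t := by omega
      subst this
      obtain ⟨hla1, ⟨y, hy⟩⟩ := hn.la p hp hpM h1 h2
      have hF : Fact p.Prime := ⟨hp⟩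
      have hla0 : ((la : ℕ) : ZMod p) ≠ 0 := by
        rw [Ne, ZMod.natCast_eq_zero_iff]
        exact hla1
      obtain ⟨x, hx⟩ := hs
      push_cast at hx hy ⊢
      have hy0 : y ≠ 0 := by
        rintro rfl
        apply hla0
        rw [mul_zero, neg_eq_zero] at hy
        exact hy
      refine ⟨x / y, ?_⟩
      rw [div_mul_div_comm, ← hx, ← hy]
      field_simp)
  obtain ⟨k, hk2⟩ := h3.1
  exact ⟨by omega, h3.2⟩

/-- classes with a large common factor -/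
theorem tac_ratio_lk [Nonempty P] (H : Half inc c d) (hcard : Fintype.card I = Fintype.card J)
    {n la : ℕ} (D : Des inc n la) {M M' n' : ℕ} (hn : Lk M M' n n' la)
    {g g' : ℕ} {m : I → ℕ} {m' : J → ℕ}
    (hc : ∀ i, cs c i = g * m i) (hd : ∀ j, cs d j = g' * m' j)
    (hm : ∀ i, ∀ q : ℕ, q.Prime → q ∣ m i → q ∣ M)
    (hm' : ∀ j, ∀ q : ℕ, q.Prime → q ∣ m' j → q ∣ M)
    (hS : ∀ q : ℕ, q.Prime → q ∣ ∑ i, m i → q ∣ M) :
    Fintype.card I % 4 = 1 ∧ IsSquare ((∑ i, m i) * ∏ i, m i) := by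
  classical
  set T := Fintype.card I with hT
  set S := ∑ i, m i with hSdef
  have hv : g * S = Fintype.card P := by
    have h1 := sum_cls c (fun _ => (1 : ℤ))
    simp only [one_mul, hc, sum_const, card_univ, nsmul_eq_mul, mul_one] at h1
    rw [hSdef, mul_sum]
    exact_mod_cast h1
  have hv' : g' * ∑ j, m' j = Fintype.card L := by
    have h1 := sum_cls d (fun _ => (1 : ℤ))
    simp only [one_mul, hd, sum_const, card_univ, nsmul_eq_mul, mul_one] at h1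
    rw [mul_sum]
    exact_mod_cast h1
  have hsq := des_sq D
  have hcv := D.card
  have hmi : ∀ i, m i ≠ 0 := by
    intro i h0
    have h1 := cs_pos H.surj i
    rw [hc, h0, mul_zero] at h1
    exact absurd h1 (lt_irrefl 0)
  have hne : Nonempty I := by
    obtain ⟨x⟩ := ‹Nonempty P›
    exact ⟨c x⟩
  have hS0 : S ≠ 0 := by
    have h1 : 0 < Fintype.card P := Fintype.card_pos
    rintro h0
    rw [← hv, h0, mul_zero] at h1
    exact absurd h1 (lt_irrefl 0)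
  have key : ∀ p : ℕ, p.Prime → ¬ p ∣ M' → p ∣ n' → ¬ p ^ 2 ∣ n' →
      ∃ t, T + 1 = 2 * t ∧ IsSquare ((-1) ^ (t + 1) * ((S * ∏ i, m i : ℕ) : ZMod p)) := by
    intro p hp hpM2 h1' h2'
    have : Fact p.Prime := ⟨hp⟩
    have hpM : ¬ p ∣ M := fun h => hpM2 (h.trans hn.dvd)
    obtain ⟨h1, h2⟩ := hn.ex p hp hpM2 h1' h2'
    obtain ⟨u, hu, hN⟩ := exact_dvd h1 h2
    have hla1 : ¬ p ∣ la := (hn.la p hp hpM2 h1' h2').1
    have hla0 : ((la : ℕ) : ZMod p) ≠ 0 := by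
      rw [Ne, ZMod.natCast_eq_zero_iff]
      exact hla1
    have hvp : ((Fintype.card L : ℕ) : ZMod p) = (la : ℕ) := by
      have h1 : ((n : ℕ) : ZMod p) = 0 := (ZMod.natCast_eq_zero_iff _ _).2 h1
      have h2 := congrArg (fun x : ℤ => (x : ZMod p)) hsq
      push_cast at h2
      rw [h1] at h2
      apply mul_left_cancel₀ hla0
      linear_combination -h2
    have hg : ((g : ℕ) : ZMod p) * (S : ℕ) = (la : ℕ) := by
      rw [← hvp, ← hcv, ← hv]; push_cast; ring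
    have hg' : ((g' : ℕ) : ZMod p) * ((∑ j, m' j : ℕ) : ZMod p) = (la : ℕ) := by
      rw [← hvp, ← hv', Nat.cast_mul]
    have n1 : ¬ p ∣ g := by
      intro h
      rw [(ZMod.natCast_eq_zero_iff g p).2 h, zero_mul] at hg
      exact hla0 hg.symm
    have n2 : ¬ p ∣ g' := by
      intro h
      rw [(ZMod.natCast_eq_zero_iff g' p).2 h, zero_mul] at hg'
      exact hla0 hg'.symm
    obtain ⟨t, ht, r, hr⟩ := tac_quad H hcard D hp hla1
      (fun i => by
        rw [hc]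
        intro h
        rcases (Nat.Prime.dvd_mul hp).1 h with h | h
        · exact n1 h
        · exact hpM (hm i p hp h))
      (fun j => by
        rw [hd]
        intro h
        rcases (Nat.Prime.dvd_mul hp).1 h with h | h
        · exact n2 h
        · exact hpM (hm' j p hp h)) odd_one hu hN
    refine ⟨t, ht, r * ((S : ℕ) : ZMod p) ^ t / ((la : ℕ) : ZMod p) ^ t, ?_⟩
    have hr2 : (∏ i, (cs c i : ℤ)) = (g : ℤ) ^ T * ∏ i, (m i : ℤ) := by
      rw [hT, ← card_univ, ← prod_const, ← prod_mul_distrib]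
      exact prod_congr rfl fun i _ => by rw [hc]; push_cast; ring
    rw [hr2] at hr
    push_cast at hr
    have e0 : ((la : ℕ) : ZMod p) ^ t ≠ 0 := pow_ne_zero _ hla0
    rw [div_mul_div_comm, eq_div_iff (mul_ne_zero e0 e0)]
    have e1 : (r * ((S : ℕ) : ZMod p) ^ t) * (r * ((S : ℕ) : ZMod p) ^ t) =
        (r * r) * ((S : ℕ) : ZMod p) ^ (2 * t) := by ring
    have e2 : ((la : ℕ) : ZMod p) ^ t * ((la : ℕ) : ZMod p) ^ t =
        ((la : ℕ) : ZMod p) * (((g : ℕ) : ZMod p) ^ T * ((S : ℕ) : ZMod p) ^ T) := by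
      have e3 : ((g : ℕ) : ZMod p) ^ T * ((S : ℕ) : ZMod p) ^ T = ((la : ℕ) : ZMod p) ^ T := by
        rw [← mul_pow, hg]
      rw [e3, ← pow_add, ← pow_succ']
      congr 1
      omega
    rw [e1, e2, ← hr, ← ht, pow_succ ((S : ℕ) : ZMod p)]
    push_cast
    rw [pow_succ]
    ring
  obtain ⟨p0, hp0, hpM0, h10, h20⟩ := hn.ar.1
  obtain ⟨t, ht, -⟩ := key p0 hp0 (not_dvd_of_succ hp0 hpM0) h10 h20
  have h3 := square_of hn.ar (Q := S * ∏ i, m i)
    (mul_ne_zero hS0 (Finset.prod_ne_zero_iff.2 fun i _ => hmi i)) (by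
      intro q hq hqQ
      rcases (Nat.Prime.dvd_mul hq).1 hqQ with hqQ | hqQ
      · exact (hS q hq hqQ).trans hn.dvd
      obtain ⟨i, -, hi⟩ := (Prime.dvd_finsetProd_iff (Nat.prime_iff.1 hq) _).1 hqQ
      exact (hm i q hq hi).trans hn.dvd) (t + 1) (by
      intro p hp hpM h1 h2
      obtain ⟨t', ht', hs⟩ := key p hp hpM h1 h2
      have : t' = t := by omega
      subst this
      exact hs)
  obtain ⟨k, hk2⟩ := h3.1
  exact ⟨by omega, h3.2⟩

end

/-! ### Properties of designs which almost all numbers of points have -/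

/-- the blocks `B i` form a symmetric design -/
structure SD (v k lam : ℕ) (B : Fin v → Finset (Fin v)) : Prop where
  kv : k < v
  size : ∀ i, (B i).card = k
  pair : ∀ x y : Fin v, x ≠ y →
    (Finset.univ.filter (fun i => x ∈ B i ∧ y ∈ B i)).card = lam

/-- `v` points, type `(r, s)` -/
def FixC (Bad : ∀ v : ℕ, (Fin v → Finset (Fin v)) → Prop) (r s v : ℕ) : Prop :=
  ∃ (k lam : ℕ) (B : Fin v → Finset (Fin v)) (b c : ℕ), SD v k lam B ∧ Bad v B ∧ 1 ≤ b ∧ 1 ≤ c ∧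
    k = r ^ 2 * b ∧ v = 1 + b * (r ^ 2 + s ^ 2) ∧ lam = r ^ 2 * c ∧
    r ^ 2 * b = 1 + c * (r ^ 2 + s ^ 2)

variable {Bad : ∀ v : ℕ, (Fin v → Finset (Fin v)) → Prop} {M : ℕ}

theorem small_fixC (hM : M ≠ 0)
    (hbad : ∀ (v k lam : ℕ) (B : Fin v → Finset (Fin v)), 2 ≤ v → 1 ≤ lam → SD v k lam B →
      ∀ M' n', Lk M M' (k - lam) n' lam → ¬ Bad v B)
    {r s : ℕ} (hr : 1 ≤ r) (hs : 1 ≤ s) : Small (FixC Bad r s) := by
  classical
  intro ε hε
  obtain ⟨N0, hN0⟩ := (ar_negl (M * (r * s))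
    (mul_ne_zero hM (mul_ne_zero (by omega) (by omega))) ε hε).exists_forall_of_atTop
  refine ⟨N0, fun N hN => le_trans ?_ (hN0 N hN)⟩
  rw [Nat.cast_le]
  have hfin : {n : ℕ | n ≤ N ∧ (1 ≤ n ∧ ¬ ArOK (M * (r * s)) n)}.Finite :=
    (Set.finite_Iic N).subset fun n hn => hn.1
  have hsub : {v : ℕ | v ≤ N ∧ FixC Bad r s v} ⊆
      (fun n : ℕ => (fr r s n / (s : ℤ) ^ 2).toNat) ''
        {n : ℕ | n ≤ N ∧ (1 ≤ n ∧ ¬ ArOK (M * (r * s)) n)} := by
    rintro v ⟨hvN, k, lam, B, b, c, hE, hB, hb, hc, hkb, hvb, hlc, hbc⟩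
    have hr2 : 1 ≤ r ^ 2 := Nat.one_le_pow _ _ hr
    have hs2 : 1 ≤ s ^ 2 := Nat.one_le_pow _ _ hs
    have hcb : c < b := by
      by_contra h
      push Not at h
      nlinarith
    have hkey : fr r s (b - c) = (v : ℤ) * (s : ℤ) ^ 2 := by
      unfold fr
      rw [Nat.cast_sub hcb.le, hvb]
      have h1 : (r : ℤ) ^ 2 * b = 1 + c * (r ^ 2 + s ^ 2) := by exact_mod_cast hbc
      push_cast
      linear_combination (((r : ℤ) ^ 2 + (s : ℤ) ^ 2)) * h1
    have hv2 : 2 ≤ v := by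
      rw [hvb]
      nlinarith
    have hl1 : 1 ≤ lam := by
      rw [hlc]
      nlinarith
    refine ⟨b - c, ⟨?_, by omega, fun har => ?_⟩, ?_⟩
    · have : b ≤ v := by
        rw [hvb]
        nlinarith
      omega
    · have hl := link hM hr hs hcb hbc har
      rw [← hkb, ← hlc] at hl
      exact hbad v k lam B hv2 hl1 hE _ _ hl hB
    · show (fr r s (b - c : ℕ) / (s : ℤ) ^ 2).toNat = v
      rw [hkey, Int.mul_ediv_cancel _ (by positivity)]
      simp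
  exact (Set.ncard_le_ncard hsub (hfin.image _)).trans (Set.ncard_image_le hfin)

/-- `v` points carry a bad design -/
def HasC (Bad : ∀ v : ℕ, (Fin v → Finset (Fin v)) → Prop) (v : ℕ) : Prop :=
  ∃ (k lam : ℕ) (B : Fin v → Finset (Fin v)), 2 ≤ k ∧ k + 2 ≤ v ∧ SD v k lam B ∧ Bad v B

/-- the same with `k (v - 1 - k)` a square -/
def HasSqC (Bad : ∀ v : ℕ, (Fin v → Finset (Fin v)) → Prop) (v : ℕ) : Prop :=
  ∃ (k lam : ℕ) (B : Fin v → Finset (Fin v)), 2 ≤ k ∧ k + 2 ≤ v ∧ SD v k lam B ∧ Bad v B ∧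
    IsSquare (k * (v - 1 - k))

theorem small_sqC (hM : M ≠ 0)
    (hbad : ∀ (v k lam : ℕ) (B : Fin v → Finset (Fin v)), 2 ≤ v → 1 ≤ lam → SD v k lam B →
      ∀ M' n', Lk M M' (k - lam) n' lam → ¬ Bad v B) : Small (HasSqC Bad) := by
  intro ε hε
  obtain ⟨D, N0, h0⟩ := TailBig.tailBig (ε / 3) (by positivity)
  obtain ⟨N1, h1⟩ := Pool.Agent.H634R3.AA.TailSmall.tailSmall
    Pool.Agent.H634R3.AA.Pell.pell (ε / 3) (by positivity)
  have hF : Small (fun v => ∃ i ∈ Finset.Icc 1 D ×ˢ Finset.Icc 1 D, FixC Bad i.1 i.2 v) :=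
    small_finset _ _ fun i hi => by
      rw [Finset.mem_product, Finset.mem_Icc, Finset.mem_Icc] at hi
      exact small_fixC hM hbad hi.1.1 hi.2.1
  obtain ⟨N2, h2⟩ := hF (ε / 3) (by positivity)
  refine ⟨max N0 (max N1 N2), fun N hN => ?_⟩
  have e0 := h0 N (le_trans (le_max_left _ _) hN)
  have e1 := h1 N (le_trans (le_trans (le_max_left _ _) (le_max_right _ _)) hN)
  have e2 := h2 N (le_trans (le_trans (le_max_right _ _) (le_max_right _ _)) hN)
  have hsub : {v : ℕ | v ≤ N ∧ HasSqC Bad v} ⊆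
      ({v : ℕ | v ≤ N ∧ ∃ r s b c : ℕ, 1 ≤ r ∧ 1 ≤ s ∧ 1 ≤ b ∧ v = 1 + b * (r ^ 2 + s ^ 2) ∧
        r ^ 2 * b = 1 + c * (r ^ 2 + s ^ 2) ∧ D < r ^ 2 + s ^ 2 ∧ r ^ 2 + s ^ 2 ≤ b} ∪
      {v : ℕ | v ≤ N ∧ ∃ r s b c : ℕ, 1 ≤ r ∧ 1 ≤ s ∧ 1 ≤ b ∧ 1 ≤ c ∧
        v = 1 + b * (r ^ 2 + s ^ 2) ∧
        r ^ 2 * b = 1 + c * (r ^ 2 + s ^ 2) ∧ b < r ^ 2 + s ^ 2}) ∪
      {v : ℕ | v ≤ N ∧ ∃ i ∈ Finset.Icc 1 D ×ˢ Finset.Icc 1 D, FixC Bad i.1 i.2 v} := by
    rintro v ⟨hvN, k, lam, B, hk2, hkv, hT, hB, hsq⟩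
    have hlam := lam_pos hk2 hkv hT.size hT.pair
    obtain ⟨-, hcount⟩ := repl v k lam (by omega) hlam B hT.size hT.pair
    have h3 : lam * (v - 1) = k * (k - 1) := by
      have h6 : k * (k - 1) + k = k * k := by
        obtain ⟨m, hm⟩ : ∃ m, k = m + 1 := ⟨k - 1, by omega⟩
        rw [hm, Nat.add_sub_cancel]
        ring
      linarith
    obtain ⟨r, s, b, c, hr, hs, hb, hc, hkb, hvb, hlc, hbc⟩ :=
      Param.param v k lam hk2 hkv h3 hsq
    by_cases hD : r ^ 2 + s ^ 2 ≤ D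
    · right
      refine ⟨hvN, (r, s), ?_, k, lam, B, b, c, hT, hB, hb, hc, hkb, hvb, hlc, hbc⟩
      rw [Finset.mem_product, Finset.mem_Icc, Finset.mem_Icc]
      have hr2 : r ≤ r ^ 2 := Nat.le_self_pow (by norm_num) r
      have hs2 : s ≤ s ^ 2 := Nat.le_self_pow (by norm_num) s
      exact ⟨⟨hr, by show r ≤ D; omega⟩, ⟨hs, by show s ≤ D; omega⟩⟩
    · left
      push Not at hD
      rcases le_or_gt (r ^ 2 + s ^ 2) b with h | h
      · left
        exact ⟨hvN, r, s, b, c, hr, hs, hb, hvb, hbc, hD, h⟩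
      · right
        exact ⟨hvN, r, s, b, c, hr, hs, hb, hc, hvb, hbc, h⟩
  have h3 := Set.ncard_le_ncard hsub (((fin_le N _).union (fin_le N _)).union (fin_le N _))
  have h4 : ({v : ℕ | v ≤ N ∧ HasSqC Bad v}.ncard : ℝ) ≤ _ :=
    (Nat.cast_le (α := ℝ)).2 (h3.trans ((Set.ncard_union_le _ _).trans
      (Nat.add_le_add_right (Set.ncard_union_le _ _) _)))
  push_cast at h4
  linarith

theorem exc_orC (hcompl : ∀ (v : ℕ) (B : Fin v → Finset (Fin v)), Bad v B →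
      Bad v (fun i => (B i)ᶜ)) {v : ℕ} (h : HasC Bad v) :
    Pool.Agent.H177R2.SD.Exc v ∨ HasSqC Bad v := by
  classical
  obtain ⟨k, lam, B, hk2, hkv, hT, hB⟩ := h
  have hlam := lam_pos hk2 hkv hT.size hT.pair
  obtain ⟨hrep, hcount⟩ := repl v k lam (by omega) hlam B hT.size hT.pair
  by_cases hE : v % 4 = 3 ∧ (IsSquare (k * (v - 1 - k)) ∨ IsSquare ((k - 1) * (v - k)))
  · right
    obtain ⟨h3, h4⟩ := hE
    rcases h4 with h4 | h4
    · exact ⟨k, lam, B, hk2, hkv, hT, hB, h4⟩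
    · obtain ⟨c1, c2, -⟩ := Comp.comp B (by omega) hT.kv hT.size hrep hT.pair ⊥
        (fun h hh i => by
          rw [Subgroup.mem_bot] at hh
          subst hh
          exact ⟨i, by simp⟩)
      refine ⟨v - k, v + lam - 2 * k, fun i => (B i)ᶜ, by omega, by omega,
        ⟨by omega, c1, c2⟩, hcompl v B hB, ?_⟩
      have h5 : (v - k) * (v - 1 - (v - k)) = (k - 1) * (v - k) := by
        have h6 : v - 1 - (v - k) = k - 1 := by omega
        rw [h6, mul_comm]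
      rw [h5]
      exact h4
  · left
    refine ⟨k, lam, hk2, hkv, ⟨hT.kv, k, B, hT.size, ?_, ?_⟩, hE⟩
    · intro x
      convert hrep x
    · intro x y hxy
      convert hT.pair x y hxy

/-- **a general principle for almost all `v`** -/
theorem small_C (hM : M ≠ 0)
    (hcompl : ∀ (v : ℕ) (B : Fin v → Finset (Fin v)), Bad v B → Bad v (fun i => (B i)ᶜ))
    (hbad : ∀ (v k lam : ℕ) (B : Fin v → Finset (Fin v)), 2 ≤ v → 1 ≤ lam → SD v k lam B →
      ∀ M' n', Lk M M' (k - lam) n' lam → ¬ Bad v B) : Small (HasC Bad) :=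
  (small_exc.or (small_sqC hM hbad)).mono fun _ h => exc_orC hcompl h

end Pool.Agent.Q90.TD
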